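import Pool.Agent.MP217Exact.Final
import Pool.Agent.MP217LB2.Fin

set_option autoImplicit false

/-!
# Consensus from single-reader single-writer registers: `W(n) = Θ(n (log n)^2)`

The model (processors, registers, algorithms, oblivious schedules, `Solves`, `cost`, `W`) is in
`Pool/Agent/MP217Upper/Model.lean`.
-/

namespace Pool.Agent.Results.MP_217fdb_lc.NLog2Order

open scoped ENNReal
open Pool.Agent.MP217Upper.Model (W)

/-- The expected total work of consensus is of order `n (log₂ n)²`. -/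
theorem result : ∃ C : ℕ, ∀ n : ℕ, 4 ≤ n →
    (n : ℝ≥0∞) * (Nat.log 2 n : ℝ≥0∞) ^ 2 ≤ 2 ^ 19 * W n ∧
      W n ≤ (C : ℝ≥0∞) * ((n : ℝ≥0∞) * (Nat.log 2 n : ℝ≥0∞) ^ 2) := by
  obtain ⟨C, hC⟩ := Pool.Agent.E217.W_bound
  refine ⟨C, fun n hn => ⟨Pool.Agent.MP217LB2.main n, (hC n hn).trans (le_of_eq ?_)⟩⟩
  push_cast
  ring

end Pool.Agent.Results.MP_217fdb_lc.NLog2Order
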